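import Mathlib
import Pool.Agent.H380R2.Energy
import Pool.Agent.H380R2.Assembly
import Pool.Agent.H380R2.Chain
import Pool.Agent.H380R2.Sieve
import Pool.Agent.H78R2.ET.Thresh

/-!
# Density thresholds forcing unbounded representation counts: reduction to normal integers

`r_A(n) = rep A n` is the number of ordered pairs of elements of `A` with sum `n`.

For a sequence `u` and `ε > 0` let `Irregular u ε` be the set of all integers `a` for which
the numbers `a / u j` (`j` with `u j ≤ a`) have discrepancy at least `ε` modulo one.  If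
`u j = b ^ j`, then it consists of the integers which are not `ε`-normal in base `b`.
All sequences `u` are lacunary.

1. Inside a finite union of sets of irregular integers all `g` up to `exp (c #{j : u j ≤ N})`
   (a power of `N` for `u j = b ^ j`) force unbounded representations.
2. Let countably many sequences `u` be given, and let `g (N) ≤ exp (c #{j : u j ≤ N})` for all of
   them, all `c > 0` and large `N` (if all of them are geometric: `g (N) = N ^ o(1)`).  Then `g`
   forces unbounded representations if and only if it does so for the sets `A` of integers which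
   are asymptotically regular with respect to all the `u` (asymptotically normal in all bases).
3. Q1 holds if and only if it holds for the sets `A` which meet each member of a given countable
   family of small sets (thin sets, sets with gaps modulo infinitely many moduli, sets of
   irregular integers) in a finite set.
-/

set_option autoImplicit false

open Filter Topology

namespace Pool.Agent.Results.MP_491344_nt.IrregularThresholds

open Pool.Agent.H380R2 Pool.Agent.H78R2.ET

/-- `S` is thin: either along a divisibility chain, or along a set of pairwise coprime moduli. -/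
def Thin (S : Set ℕ) : Prop := ThinAlongChain S ∨ SieveThin S

/-- For some `δ > 0` and infinitely many `m`, the set `S` has only finitely many elements in some
interval of at least `δ m` consecutive residue classes modulo `m`. -/
def Gappy (S : Set ℕ) : Prop :=
  ∃ δ : ℝ, 0 < δ ∧ ∃ᶠ m : ℕ in atTop, ∃ v w : ℕ, v + δ * m ≤ w ∧ w ≤ m ∧
    {a ∈ S | v ≤ a % m ∧ a % m < w}.Finite

/-- `S` is small: thin, or gappy, or a set of irregular integers with respect to some lacunary
sequence. -/
def Small (S : Set ℕ) : Prop :=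
  Thin S ∨ Gappy S ∨ ∃ (u : ℕ → ℝ) (q ε : ℝ), 0 < u 0 ∧ 1 < q ∧
    (∀ j, q * u j ≤ u (j + 1)) ∧ 0 < ε ∧ S ⊆ Irregular u ε

lemma Small.negligible {S : Set ℕ} (h : Small S) : Negligible S := by
  rcases h with h | ⟨δ, hδ, h⟩ | ⟨u, q, ε, hu0, hq, hu, hε, h⟩
  · exact h.elim (fun h => h.negligible) (fun h => h.negligible)
  · exact negligible_of_H ((avoid_biased S δ hδ h).negligibleH 2 (by omega))
  · exact negligible_of_H (((irregular_biased u q hu0 hq hu ε hε).mono h).negligibleH 2 (by omega))

lemma irregular_anti (u : ℕ → ℝ) {ε ε' : ℝ} (h : ε' ≤ ε) : Irregular u ε ⊆ Irregular u ε' := by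
  rintro a ⟨F, hF, α, β, h1, h2, h3, h4⟩
  refine ⟨F, hF, α, β, h1, h2, h3, le_trans ?_ h4⟩
  exact mul_le_mul_of_nonneg_right h (by positivity)

/-- **Main result.** -/
theorem result :
    -- 1. inside sets of irregular integers, explicit `g` force unbounded representations
    (∀ (k : ℕ) (u : Fin k → ℕ → ℝ) (q ε : Fin k → ℝ), (∀ i, 0 < u i 0) → (∀ i, 1 < q i) →
      (∀ i j, q i * u i j ≤ u i (j + 1)) → (∀ i, 0 < ε i) →
      ∃ c : ℝ, 0 < c ∧ ∀ g : ℕ → ℝ, (∀ᶠ N : ℕ in atTop, 0 < g N) →
        (∀ i, ∀ᶠ N : ℕ in atTop, g N ≤ Real.exp (c * {j : ℕ | u i j ≤ N}.ncard)) →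
        ∀ A : Set ℕ, A ⊆ ⋃ i, Irregular (u i) (ε i) →
          (∃ C : ℝ, 0 < C ∧ ∃ᶠ N : ℕ in atTop,
            C * Real.sqrt (N : ℝ) / g N ≤ ((A ∩ Set.Icc 1 N).ncard : ℝ)) →
          ∀ M : ℕ, ∃ n : ℕ, M ≤ rep A n) ∧
    -- 2. outside of them, too: only asymptotically regular (normal) integers matter
    (∀ (u : ℕ → ℕ → ℝ) (q : ℕ → ℝ), (∀ k, 0 < u k 0) → (∀ k, 1 < q k) →
      (∀ k j, q k * u k j ≤ u k (j + 1)) →
      ∀ g : ℕ → ℝ, (∀ᶠ N : ℕ in atTop, 0 < g N) →
        (∀ k, ∀ c : ℝ, 0 < c →
          ∀ᶠ N : ℕ in atTop, g N ≤ Real.exp (c * {j : ℕ | u k j ≤ N}.ncard)) →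
        (ForcesFor (fun _ => True) g ↔
          ForcesFor (fun A => ∀ k, ∀ ε : ℝ, 0 < ε → (A ∩ Irregular (u k) ε).Finite) g)) ∧
    -- 3. Q1 may be restricted to sets avoiding countably many small sets
    (∀ S : ℕ → Set ℕ, (∀ k, Small (S k)) →
      ((∃ g : ℕ → ℝ, Tendsto g atTop atTop ∧ ForcesFor (fun _ => True) g) ↔
        ∃ g : ℕ → ℝ, Tendsto g atTop atTop ∧ ForcesFor (fun A => ∀ k, (A ∩ S k).Finite) g)) := by
  refine ⟨irregular_thresholds, ?_, fun S hS => Q1_iff S (fun k => (hS k).negligible)⟩
  intro u q hu0 hq hu g hg hgu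
  rw [forces_iff g hg (fun n => Irregular (u (Nat.unpair n).1) (1 / ((Nat.unpair n).2 + 1 : ℝ)))
    (fun n => rare_irregular g hg _ (q (Nat.unpair n).1) _ (hu0 _) (hq _) (hu _) (by positivity)
      (hgu _))]
  have hiff : (fun A : Set ℕ => ∀ n, (A ∩ Irregular (u (Nat.unpair n).1)
      (1 / ((Nat.unpair n).2 + 1 : ℝ))).Finite) =
      (fun A : Set ℕ => ∀ k, ∀ ε : ℝ, 0 < ε → (A ∩ Irregular (u k) ε).Finite) := by
    funext A
    apply propext
    constructor
    · intro h k ε hε
      obtain ⟨m, hm⟩ := exists_nat_one_div_lt hε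
      have h1 := h (Nat.pair k m)
      rw [Nat.unpair_pair] at h1
      exact h1.subset (Set.inter_subset_inter_right _ (irregular_anti _ hm.le))
    · intro h n
      exact h _ _ (by positivity)
  rw [hiff]

end Pool.Agent.Results.MP_491344_nt.IrregularThresholds
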