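import Pool.Agent.H607R2.BW.REP

/-!
# Representation functions of sets of small width
-/

namespace Pool.Agent.Results.MP_491344_nt.SmallWidth

open Pool.Agent.H607R2.BW

theorem result :
    (∀ (A : Set ℕ) (w m t : ℕ), SetWidth w m A →
      w * (1 + 2 * w * m) ^ t < Nat.card {a : ℕ // a ∈ A ∧ a < 2 ^ m} →
      ∃ n < 2 ^ (m + 1), 2 ^ (t + 1) ≤ Nat.card {ab : ℕ × ℕ // ab.1 ∈ A ∧ ab.2 ∈ A ∧
        ab.1 + ab.2 = n}) ∧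
    (∀ (A : Set ℕ) (w : ℕ → ℕ) (d : ℝ), 0 < d →
      (∀ c : ℝ, 0 < c → ∃ m₀ : ℕ, ∀ m ≥ m₀, (w m : ℝ) ≤ ((2 : ℝ) ^ m) ^ c) →
      (∀ m, SetWidth (w m) m A) →
      (∃ C : ℝ, 0 < C ∧ ∀ m₀ : ℕ, ∃ m ≥ m₀,
        ((2 : ℝ) ^ m) ^ d ≤ C * Nat.card {a : ℕ // a ∈ A ∧ a < 2 ^ m}) →
      ∀ K : ℕ, ∃ n, K ≤ Nat.card {ab : ℕ × ℕ // ab.1 ∈ A ∧ ab.2 ∈ A ∧ ab.1 + ab.2 = n}) := by
  refine ⟨?_, ?_⟩
  · intro A w m t hw h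
    exact REP_explicit A w m t hw h
  · intro A w d hd hw hA hbig
    exact REP_force A w d hd hw hA hbig

end Pool.Agent.Results.MP_491344_nt.SmallWidth
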