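import Mathlib
import Pool.Agent.H380R2.Chain

/-!
# Density thresholds forcing unbounded representation counts inside thin sets

Let `M 0 ∣ M 1 ∣ ...` be a strictly increasing chain of moduli and let `|S mod M|` be the number of
residue classes mod `M` met by `S ⊆ ℕ`.  Put `σ(N) = ∑_{M j ≤ N} M j / |S mod M j| ^ 2`.
For sets `A` in a finite union of sets `S i` (each with its chain and its `σ i`), every
`g` with `g(N)² = o(σ i (N))` for all `i` forces unbounded representations: if
`|A ∩ [1,N]| ≥ c √N / g(N)` for arbitrarily large `N`, then `r_A` is unbounded.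
-/

set_option autoImplicit false

open Filter Topology

namespace Pool.Agent.Results.MP_491344_nt.ThinThresholds

open Pool.Agent.H380R2

/-- `σ(N) = ∑_{M j ≤ N} M j / |S mod M j| ^ 2` -/
noncomputable def sigma (S : Set ℕ) (M : ℕ → ℕ) (N : ℕ) : ℝ :=
  ∑ j ∈ (Finset.range (N + 1)).filter (fun j => M j ≤ N), (M j : ℝ) / (numClasses S (M j) : ℝ) ^ 2

/-- a strictly increasing chain of positive moduli, each dividing the next -/
def DivChain (M : ℕ → ℕ) : Prop := 0 < M 0 ∧ ∀ j, M j ∣ M (j + 1) ∧ M j < M (j + 1)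

lemma chain_pos {M : ℕ → ℕ} (h : DivChain M) (j : ℕ) : 0 < M j := by
  induction j with
  | zero => exact h.1
  | succ j ih => exact lt_trans ih (h.2 j).2

lemma chain_mono {M : ℕ → ℕ} (h : DivChain M) : StrictMono M :=
  strictMono_nat_of_lt_succ (fun j => (h.2 j).2)

/-- the energy inequality in terms of `σ(N)` -/
lemma sigma_bound {S : Set ℕ} {M : ℕ → ℕ} (h : DivChain M) (T : Finset ℕ) (N K : ℕ)
    (hT : ∀ a ∈ T, a ∈ S ∧ a ≤ N)
    (hK : ∀ v, ((T ×ˢ T).filter (fun p => p.1 + p.2 = v)).card ≤ K) :
    (T.card : ℝ) ^ 2 * sigma S M N ≤ 36 * K * N := by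
  classical
  have hmono := chain_mono h
  by_cases hN : M 0 ≤ N
  · -- the largest k with M k ≤ N
    set k := Nat.findGreatest (fun j => M j ≤ N) N with hk
    have hkN : M k ≤ N := by
      have := Nat.findGreatest_spec (P := fun j => M j ≤ N) (Nat.zero_le N) hN
      exact this
    have hid : ∀ j, j < M j := by
      intro j
      have h1 := hmono.id_le j
      have h2 : j + M 0 ≤ M j := by
        clear h1
        induction j with
        | zero => simp
        | succ j ih =>
          have := (h.2 j).2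
          omega
      have := h.1
      omega
    have hset : (Finset.range (N + 1)).filter (fun j => M j ≤ N) = Finset.range (k + 1) := by
      ext j
      rw [Finset.mem_filter, Finset.mem_range, Finset.mem_range, Nat.lt_succ_iff, Nat.lt_succ_iff]
      constructor
      · rintro ⟨h1, h2⟩
        exact Nat.le_findGreatest h1 h2
      · intro h1
        have h2 : M j ≤ N := le_trans (hmono.monotone h1) hkN
        exact ⟨le_of_lt (lt_of_lt_of_le (hid j) h2), h2⟩
    unfold sigma
    rw [hset]
    exact chain_bound T N K M h.1 (fun j => (h.2 j).1) (fun j => (h.2 j).2) k hkN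
      (fun a ha => (hT a ha).2) hK (fun j => numClasses S (M j))
      (fun j => image_le_numClasses S T (fun a ha => (hT a ha).1) (M j) (chain_pos h j))
  · have hset : (Finset.range (N + 1)).filter (fun j => M j ≤ N) = ∅ := by
      rw [Finset.filter_eq_empty_iff]
      intro j _ hj
      exact hN (le_trans (hmono.monotone (Nat.zero_le j)) hj)
    unfold sigma
    rw [hset, Finset.sum_empty, mul_zero]
    positivity

/-- `σ(N) → ∞` if the full sum diverges -/
lemma sigma_tendsto {S : Set ℕ} {M : ℕ → ℕ} (h : DivChain M)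
    (hns : ¬ Summable (fun j => (M j : ℝ) / (numClasses S (M j) : ℝ) ^ 2)) :
    Tendsto (sigma S M) atTop atTop := by
  rw [tendsto_atTop]
  intro b
  obtain ⟨k, hk⟩ : ∃ k, b < ∑ j ∈ Finset.range k, (M j : ℝ) / (numClasses S (M j) : ℝ) ^ 2 := by
    by_contra hcon
    push Not at hcon
    exact hns (summable_of_sum_range_le (c := b) (fun j => by positivity) hcon)
  filter_upwards [eventually_ge_atTop (M k + k)] with N hN
  refine le_trans hk.le ?_
  unfold sigma
  apply Finset.sum_le_sum_of_subset_of_nonneg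
  · intro j hj
    rw [Finset.mem_range] at hj
    rw [Finset.mem_filter, Finset.mem_range]
    have := (chain_mono h) hj
    omega
  · intro j _ _
    positivity

/-- the set `A ∩ [1,N]` as a finite set -/
lemma icc_finset (A : Set ℕ) (N : ℕ) : (A ∩ Set.Icc 1 N).ncard ≤ (trunc A N).card := by
  rw [← Set.ncard_coe_finset]
  apply Set.ncard_le_ncard _ (Finset.finite_toSet _)
  intro a ha
  rw [Finset.mem_coe, mem_trunc]
  exact ⟨ha.2.2, ha.1⟩

/-- **Main result.**  Let `S i` (`i` in a finite type) be sets with chains `M i` such that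
`σ_i(N) = ∑_{M i j ≤ N} M i j / |S i mod M i j| ^ 2 → ∞`.
(1) Every `g` with `g(N) > 0` for large `N` and `σ_i(N) / g(N)² → ∞` for all `i` forces unbounded
representations for the sets `A ⊆ ⋃ i, S i`: if `c √N / g(N) ≤ |A ∩ [1,N]|` for arbitrarily large
`N`, then `r_A` is unbounded.
(2) There is such a `g` with `g(N) → ∞`. -/
theorem result {ι : Type} [Fintype ι] (S : ι → Set ℕ) (M : ι → ℕ → ℕ)
    (hM : ∀ i, DivChain (M i))
    (hns : ∀ i, ¬ Summable (fun j => (M i j : ℝ) / (numClasses (S i) (M i j) : ℝ) ^ 2)) :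
    (∀ g : ℕ → ℝ, (∀ᶠ N in atTop, 0 < g N) →
      (∀ i, Tendsto (fun N => sigma (S i) (M i) N / (g N) ^ 2) atTop atTop) →
      ∀ A : Set ℕ, A ⊆ ⋃ i, S i →
        (∃ c : ℝ, 0 < c ∧ ∃ᶠ N : ℕ in atTop,
          c * Real.sqrt (N : ℝ) / g N ≤ ((A ∩ Set.Icc 1 N).ncard : ℝ)) →
        ∀ B : ℕ, ∃ n : ℕ, B ≤ rep A n) ∧
    (∃ g : ℕ → ℝ, Tendsto g atTop atTop ∧
      ∀ i, Tendsto (fun N => sigma (S i) (M i) N / (g N) ^ 2) atTop atTop) := by
  classical
  constructor
  · intro g hg hσ A hA hc B
    by_contra hcon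
    push Not at hcon
    obtain ⟨c, hc0, hfreq⟩ := hc
    set m : ℕ := Fintype.card ι with hm
    have hev : ∀ᶠ N : ℕ in atTop, ∀ i,
        36 * (B : ℝ) * ((m : ℝ) + 1) ^ 2 / c ^ 2 < sigma (S i) (M i) N / (g N) ^ 2 := by
      rw [eventually_all]
      intro i
      exact (hσ i).eventually_gt_atTop _
    obtain ⟨N, hN1, hN2, hN3, hN4⟩ :=
      (hfreq.and_eventually (hev.and (hg.and (eventually_gt_atTop 0)))).exists
    set T := trunc A N with hT
    have hTS : ∀ a ∈ T, a ∈ A ∧ a ≤ N := fun a ha => by
      rw [hT, mem_trunc] at ha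
      exact ⟨ha.2, ha.1⟩
    have hcover : T ⊆ (Finset.univ : Finset ι).biUnion (fun i => T.filter (fun a => a ∈ S i)) := by
      intro a ha
      obtain ⟨i, hi⟩ := Set.mem_iUnion.1 (hA (hTS a ha).1)
      rw [Finset.mem_biUnion]
      exact ⟨i, Finset.mem_univ _, Finset.mem_filter.2 ⟨ha, hi⟩⟩
    have hcard : (T.card : ℝ) ≤ ∑ i : ι, ((T.filter (fun a => a ∈ S i)).card : ℝ) := by
      have := le_trans (Finset.card_le_card hcover) Finset.card_biUnion_le
      exact_mod_cast this
    have hNpos : (0 : ℝ) < N := by exact_mod_cast hN4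
    have hgpos : 0 < g N := hN3
    have hTpos : c * Real.sqrt N / g N ≤ (T.card : ℝ) := by
      refine le_trans hN1 ?_
      exact_mod_cast icc_finset A N
    have hTpos' : 0 < c * Real.sqrt N / g N := by
      have := Real.sqrt_pos.2 hNpos
      positivity
    -- each part is small
    have hpart : ∀ i, ((T.filter (fun a => a ∈ S i)).card : ℝ) * ((m : ℝ) + 1) <
        c * Real.sqrt N / g N ∨ (T.filter (fun a => a ∈ S i)).card = 0 := by
      intro i
      rcases Nat.eq_zero_or_pos (T.filter (fun a => a ∈ S i)).card with h0 | hpos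
      · exact Or.inr h0
      left
      have h1 := sigma_bound (hM i) (T.filter (fun a => a ∈ S i)) N B
        (fun a ha => by
          rw [Finset.mem_filter] at ha
          exact ⟨ha.2, (hTS a ha.1).2⟩)
        (fun v => by
          refine le_trans (Finset.card_le_card ?_) (le_trans (trunc_rep A N v) (hcon v).le)
          intro p hp
          simp only [Finset.mem_filter, Finset.mem_product] at hp ⊢
          exact ⟨⟨hp.1.1.1, hp.1.2.1⟩, hp.2⟩)
      have h2 := hN2 i
      rw [div_lt_div_iff₀ (by positivity) (by positivity)] at h2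
      set t : ℝ := ((T.filter (fun a => a ∈ S i)).card : ℝ) with ht
      have htpos : 0 < t := by rw [ht]; exact_mod_cast hpos
      apply lt_of_pow_lt_pow_left₀ 2 hTpos'.le
      rw [mul_pow, div_pow, mul_pow, Real.sq_sqrt hNpos.le, lt_div_iff₀ (by positivity)]
      set s : ℝ := sigma (S i) (M i) N with hs
      -- t² s ≤ 36 B N and 36 B (m+1)² g² < s c²
      have h3 : t ^ 2 * (36 * (B : ℝ) * ((m : ℝ) + 1) ^ 2 * (g N) ^ 2) < t ^ 2 * (s * c ^ 2) :=
        mul_lt_mul_of_pos_left h2 (by positivity)
      have h4 : t ^ 2 * (s * c ^ 2) ≤ 36 * (B : ℝ) * N * c ^ 2 := by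
        calc t ^ 2 * (s * c ^ 2) = (t ^ 2 * s) * c ^ 2 := by ring
          _ ≤ (36 * (B : ℝ) * N) * c ^ 2 := mul_le_mul_of_nonneg_right h1 (by positivity)
      have h5 : (0 : ℝ) ≤ B := by positivity
      rcases h5.eq_or_lt with hB | hB
      · rw [← hB] at h3 h4
        simp only [mul_zero, zero_mul] at h3 h4
        exact absurd (lt_of_lt_of_le h3 h4) (lt_irrefl _)
      · have h6 : (36 * (B : ℝ)) * (t ^ 2 * ((m : ℝ) + 1) ^ 2 * (g N) ^ 2) <
            (36 * (B : ℝ)) * (c ^ 2 * N) := by
          calc (36 * (B : ℝ)) * (t ^ 2 * ((m : ℝ) + 1) ^ 2 * (g N) ^ 2) =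
              t ^ 2 * (36 * (B : ℝ) * ((m : ℝ) + 1) ^ 2 * (g N) ^ 2) := by ring
            _ < t ^ 2 * (s * c ^ 2) := h3
            _ ≤ 36 * (B : ℝ) * N * c ^ 2 := h4
            _ = _ := by ring
        exact lt_of_mul_lt_mul_left h6 (by positivity)
    have hle : ∀ i, ((T.filter (fun a => a ∈ S i)).card : ℝ) ≤
        (c * Real.sqrt N / g N) / ((m : ℝ) + 1) := by
      intro i
      rw [le_div_iff₀ (by positivity)]
      rcases hpart i with h | h
      · exact h.le
      · rw [h]
        push_cast
        rw [zero_mul]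
        exact hTpos'.le
    have hfin : (T.card : ℝ) ≤ (m : ℝ) * ((c * Real.sqrt N / g N) / ((m : ℝ) + 1)) := by
      refine le_trans hcard (le_trans (Finset.sum_le_sum (fun i _ => hle i)) ?_)
      rw [Finset.sum_const, Finset.card_univ, ← hm, nsmul_eq_mul]
    have h7 : (m : ℝ) * ((c * Real.sqrt N / g N) / ((m : ℝ) + 1)) < c * Real.sqrt N / g N := by
      rw [mul_div_assoc', div_lt_iff₀ (by positivity)]
      nlinarith
    linarith
  · -- existence of g
    have hσ : ∀ i, Tendsto (sigma (S i) (M i)) atTop atTop :=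
      fun i => sigma_tendsto (hM i) (hns i)
    rcases isEmpty_or_nonempty ι with hι | hι
    · exact ⟨fun N => (N : ℝ), tendsto_natCast_atTop_atTop, fun i => (hι.false i).elim⟩
    · set μ : ℕ → ℝ := fun N => Finset.univ.inf' Finset.univ_nonempty
        (fun i => sigma (S i) (M i) N) with hμ
      have hμt : Tendsto μ atTop atTop := by
        rw [tendsto_atTop]
        intro b
        have : ∀ᶠ N in atTop, ∀ i, b ≤ sigma (S i) (M i) N := by
          rw [eventually_all]
          intro i
          exact (hσ i).eventually_ge_atTop b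
        filter_upwards [this] with N hN
        rw [hμ]
        simp only [Finset.le_inf'_iff, Finset.mem_univ, forall_const]
        exact hN
      refine ⟨fun N => Real.sqrt (Real.sqrt (μ N)), ?_, ?_⟩
      · exact Real.tendsto_sqrt_atTop.comp (Real.tendsto_sqrt_atTop.comp hμt)
      · intro i
        have h1 : Tendsto (fun N => Real.sqrt (μ N)) atTop atTop :=
          Real.tendsto_sqrt_atTop.comp hμt
        apply tendsto_atTop_mono' atTop _ h1
        filter_upwards [hμt.eventually_gt_atTop 0] with N hN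
        have h2 : μ N ≤ sigma (S i) (M i) N := Finset.inf'_le _ (Finset.mem_univ i)
        have h3 : (0 : ℝ) < Real.sqrt (μ N) := Real.sqrt_pos.2 hN
        rw [Real.sq_sqrt h3.le, le_div_iff₀ h3, Real.mul_self_sqrt hN.le]
        exact h2

end Pool.Agent.Results.MP_491344_nt.ThinThresholds
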