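import Mathlib

/-!
# Density thresholds forcing unbounded representation counts: no function is extremal

`Forces g`: every `A ⊆ ℕ` with `|A ∩ [1,N]| ≥ c √N / g(N)` for some `c > 0` and all large `N` has an
unbounded representation function `r_A`.

* for an increasing sequence `G 0 ≤ G 1 ≤ ...` of positive functions, all `G j` force iff there is a
  forcing function `g` with `g / G j → ∞` for every `j` (no countable chain is cofinal);
* some `g → ∞` forces unbounded representations iff the strong form of the Erdős–Turán conjecture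
  (`a_n ≤ C n²` implies `r_A` unbounded) holds.
-/

set_option autoImplicit false

open Filter Topology

namespace Pool.Agent.Results.MP_491344_nt.ThresholdEquivalence

/-- `r_A(n)`: number of ordered pairs `(a,b) ∈ A × A` with `a + b = n` -/
noncomputable def rep (A : Set ℕ) (n : ℕ) : ℕ :=
  {p : ℕ × ℕ | p.1 + p.2 = n ∧ p.1 ∈ A ∧ p.2 ∈ A}.ncard

/-- `g` forces unbounded representations -/
def Forces (g : ℕ → ℝ) : Prop :=
  ∀ A : Set ℕ,
    (∃ c : ℝ, 0 < c ∧ ∀ᶠ N : ℕ in atTop,
        c * Real.sqrt (N : ℝ) / g N ≤ ((A ∩ Set.Icc 1 N).ncard : ℝ)) →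
    ∀ M : ℕ, ∃ n : ℕ, M ≤ rep A n

lemma rep_congr {A B : Set ℕ} {n : ℕ} (h : ∀ a ≤ n, a ∈ A ↔ a ∈ B) : rep A n = rep B n := by
  unfold rep
  congr 1
  ext p
  constructor
  · rintro ⟨h1, h2, h3⟩
    exact ⟨h1, (h _ (by omega)).1 h2, (h _ (by omega)).1 h3⟩
  · rintro ⟨h1, h2, h3⟩
    exact ⟨h1, (h _ (by omega)).2 h2, (h _ (by omega)).2 h3⟩

lemma count_congr {A B : Set ℕ} {N : ℕ} (h : ∀ a ≤ N, a ∈ A ↔ a ∈ B) :
    A ∩ Set.Icc 1 N = B ∩ Set.Icc 1 N := by
  ext a
  simp only [Set.mem_inter_iff, Set.mem_Icc]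
  constructor
  · rintro ⟨h1, h2, h3⟩
    exact ⟨(h _ h3).1 h1, h2, h3⟩
  · rintro ⟨h1, h2, h3⟩
    exact ⟨(h _ h3).2 h1, h2, h3⟩

/-- compactness: the forcing is visible on a finite interval -/
lemma compactness {g : ℕ → ℝ} (hg : Forces g) {c : ℝ} (hc : 0 < c) (k M : ℕ) :
    ∃ M' : ℕ, M ≤ M' ∧ ∀ A : Set ℕ,
      (∀ N, M ≤ N → N ≤ M' → c * Real.sqrt (N : ℝ) / g N ≤ ((A ∩ Set.Icc 1 N).ncard : ℝ)) →
      ∃ n, k < rep A n := by
  classical
  by_contra hcon
  push Not at hcon
  have hcon' : ∀ M' : ℕ, ∃ A : Set ℕ,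
      (∀ N, M ≤ N → N ≤ M + M' →
        c * Real.sqrt (N : ℝ) / g N ≤ ((A ∩ Set.Icc 1 N).ncard : ℝ)) ∧
      ∀ n, rep A n ≤ k := fun M' => hcon (M + M') (Nat.le_add_right _ _)
  choose F hF1 hF2 using hcon'
  set U : Ultrafilter ℕ := hyperfilter ℕ with hU
  let A : Set ℕ := {a | ∀ᶠ i in (U : Filter ℕ), a ∈ F i}
  have hagree1 : ∀ a : ℕ, ∀ᶠ i in (U : Filter ℕ), (a ∈ A ↔ a ∈ F i) := by
    intro a
    by_cases ha : a ∈ A
    · have : ∀ᶠ i in (U : Filter ℕ), a ∈ F i := ha
      filter_upwards [this] with i hi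
      exact ⟨fun _ => hi, fun _ => ha⟩
    · have h1 : ¬ ∀ᶠ i in (U : Filter ℕ), a ∈ F i := ha
      have h2 : ∀ᶠ i in (U : Filter ℕ), ¬ a ∈ F i := Ultrafilter.eventually_not.2 h1
      filter_upwards [h2] with i hi
      exact ⟨fun h => absurd h ha, fun h => absurd h hi⟩
  have hagree : ∀ n : ℕ, ∀ᶠ i in (U : Filter ℕ), ∀ a ≤ n, (a ∈ A ↔ a ∈ F i) := by
    intro n
    have : ∀ᶠ i in (U : Filter ℕ), ∀ a ∈ Finset.range (n + 1), (a ∈ A ↔ a ∈ F i) :=
      (Filter.eventually_all_finset _).2 (fun a _ => hagree1 a)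
    filter_upwards [this] with i hi a ha
    exact hi a (Finset.mem_range.2 (by omega))
  have hlarge : ∀ N : ℕ, ∀ᶠ i in (U : Filter ℕ), N ≤ i := by
    intro N
    have h1 : (U : Filter ℕ) ≤ cofinite := hyperfilter_le_cofinite
    rw [Nat.cofinite_eq_atTop] at h1
    exact h1 (eventually_ge_atTop N)
  have hA1 : ∀ n, rep A n ≤ k := by
    intro n
    obtain ⟨i, hi⟩ := (hagree n).exists
    rw [rep_congr hi]
    exact hF2 i n
  have hA2 : ∀ N, M ≤ N → c * Real.sqrt (N : ℝ) / g N ≤ ((A ∩ Set.Icc 1 N).ncard : ℝ) := by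
    intro N hN
    obtain ⟨i, hi1, hi2⟩ := ((hagree N).and (hlarge N)).exists
    rw [count_congr hi1]
    exact hF1 i N hN (by omega)
  obtain ⟨n, hn⟩ := hg A ⟨c, hc, eventually_atTop.2 ⟨M, hA2⟩⟩ (k + 1)
  have := hA1 n
  omega

/-- diagonal construction -/
lemma diagonal (G : ℕ → ℕ → ℝ) (hpos : ∀ j N, 0 < G j N) (hmono : ∀ j N, G j N ≤ G (j + 1) N)
    (hF : ∀ j, Forces (G j)) :
    ∃ g : ℕ → ℝ, Forces g ∧ ∀ j, Tendsto (fun N => g N / G j N) atTop atTop := by
  classical
  have key : ∀ j M : ℕ, ∃ M' : ℕ, M ≤ M' ∧ ∀ A : Set ℕ,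
      (∀ N, M ≤ N → N ≤ M' →
        (1 / ((j : ℝ) + 1) ^ 2) * Real.sqrt (N : ℝ) / G j N ≤ ((A ∩ Set.Icc 1 N).ncard : ℝ)) →
      ∃ n, j < rep A n := fun j M => compactness (hF j) (by positivity) j M
  choose E hE1 hE2 using key
  obtain ⟨T, hT0, hT⟩ : ∃ T : ℕ → ℕ, T 0 = 0 ∧ ∀ j, T (j + 1) = E j (T j) + 1 :=
    ⟨fun j => Nat.rec 0 (fun j t => E j t + 1) j, rfl, fun j => rfl⟩
  have hTlt : ∀ j, T j < T (j + 1) := by
    intro j
    rw [hT]
    have := hE1 j (T j)
    omega
  have hTmono : StrictMono T := strictMono_nat_of_lt_succ hTlt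
  let J : ℕ → ℕ := fun N => Nat.findGreatest (fun j => T j ≤ N) N
  have hJ : ∀ N j, T j ≤ N → N < T (j + 1) → J N = j := by
    intro N j h1 h2
    have hjN : j ≤ N := le_trans (hTmono.id_le j) h1
    apply le_antisymm
    · by_contra hlt
      push Not at hlt
      have h3 : T (J N) ≤ N := Nat.findGreatest_spec (P := fun j => T j ≤ N) (m := j) hjN h1
      have h4 : T (j + 1) ≤ T (J N) := hTmono.monotone hlt
      omega
    · exact Nat.le_findGreatest hjN h1
  have hJle : ∀ N j, T j ≤ N → j ≤ J N := by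
    intro N j h1
    exact Nat.le_findGreatest (le_trans (hTmono.id_le j) h1) h1
  have hGmono : ∀ N, Monotone (fun j => G j N) := fun N => monotone_nat_of_le_succ (fun j => hmono j N)
  refine ⟨fun N => ((J N : ℝ) + 1) * G (J N) N, ?_, ?_⟩
  · rintro A ⟨c, hc, hA⟩ M
    obtain ⟨N0, hN0⟩ := eventually_atTop.1 hA
    obtain ⟨j0, hj0⟩ := exists_nat_gt (1 / c)
    set j := max (max N0 M) j0 with hj
    have hjc : 1 / ((j : ℝ) + 1) ≤ c := by
      have h1 : (1 / c : ℝ) < (j : ℝ) + 1 := by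
        have : (j0 : ℝ) ≤ j := by exact_mod_cast le_max_right _ _
        linarith
      rw [div_le_iff₀ (by positivity)]
      rw [div_lt_iff₀ hc] at h1
      linarith
    obtain ⟨n, hn⟩ := hE2 j (T j) A (by
      intro N h1 h2
      have hJN : J N = j := hJ N j h1 (by rw [hT]; omega)
      have hNN0 : N0 ≤ N := by
        have h3 : j ≤ T j := hTmono.id_le j
        have h4 : N0 ≤ j := le_trans (le_max_left _ _) (le_max_left _ _)
        omega
      have h5 := hN0 N hNN0
      simp only [hJN] at h5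
      refine le_trans ?_ h5
      have hG := hpos j N
      have hj1 : (0 : ℝ) < (j : ℝ) + 1 := by positivity
      rw [div_le_div_iff₀ hG (by positivity)]
      have hs : 0 ≤ Real.sqrt (N : ℝ) := Real.sqrt_nonneg _
      have : 1 / ((j : ℝ) + 1) ^ 2 * Real.sqrt N * (((j : ℝ) + 1) * G j N)
          = (1 / ((j : ℝ) + 1)) * (Real.sqrt N * G j N) := by
        field_simp
      rw [this]
      have h6 : c * Real.sqrt N * G j N = c * (Real.sqrt N * G j N) := by ring
      rw [h6]
      exact mul_le_mul_of_nonneg_right hjc (by positivity))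
    refine ⟨n, ?_⟩
    have h4 : M ≤ j := le_trans (le_max_right _ _) (le_max_left _ _)
    omega
  · intro j
    rw [tendsto_atTop]
    intro b
    obtain ⟨m, hm⟩ := exists_nat_gt b
    filter_upwards [eventually_ge_atTop (T (max j m))] with N hN
    have h1 : max j m ≤ J N := hJle N _ hN
    have h2 : G j N ≤ G (J N) N := hGmono N (le_trans (le_max_left _ _) h1)
    have h3 : (m : ℝ) ≤ (J N : ℝ) := by exact_mod_cast le_trans (le_max_right _ _) h1
    rw [le_div_iff₀ (hpos j N)]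
    have h4 : b ≤ (J N : ℝ) + 1 := by linarith
    calc b * G j N ≤ ((J N : ℝ) + 1) * G j N :=
          mul_le_mul_of_nonneg_right h4 (hpos j N).le
      _ ≤ ((J N : ℝ) + 1) * G (J N) N := mul_le_mul_of_nonneg_left h2 (by positivity)

/-- some `g → ∞` forces iff the constant `1` forces -/
lemma exists_iff_one :
    (∃ g : ℕ → ℝ, Tendsto g atTop atTop ∧ Forces g) ↔ Forces (fun _ => 1) := by
  constructor
  · rintro ⟨g, hg, hF⟩ A ⟨c, hc, hA⟩
    refine hF A ⟨c, hc, ?_⟩
    filter_upwards [hA, hg.eventually_ge_atTop 1] with N h1 h2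
    refine le_trans ?_ h1
    rw [div_one]
    exact div_le_self (by positivity) h2
  · intro h
    obtain ⟨g, hg, hg'⟩ := diagonal (fun _ _ => 1) (fun _ _ => one_pos) (fun _ _ => le_refl _)
      (fun _ => h)
    refine ⟨g, ?_, hg⟩
    simpa using hg' 0

/-- the strong form of the Erdős–Turán conjecture: if `A` is infinite and its `n`-th element is
at most `C n²` for all `n ≥ 1`, then `r_A` is unbounded -/
def StrongErdosTuran : Prop :=
  ∀ A : Set ℕ, A.Infinite →
    (∃ C : ℝ, ∀ n : ℕ, (Nat.nth (fun a => a ∈ A) n : ℝ) ≤ C * ((n : ℝ) + 1) ^ 2) →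
    ∀ M : ℕ, ∃ n : ℕ, M ≤ rep A n

lemma forces_one_iff : Forces (fun _ => 1) ↔ StrongErdosTuran := by
  classical
  constructor
  · rintro h A hinf ⟨C, hC⟩
    apply h A
    have hnth : ∀ n, Nat.nth (fun a => a ∈ A) n ∈ A := fun n =>
      Nat.nth_mem_of_infinite hinf n
    have hmono : StrictMono (Nat.nth (fun a => a ∈ A)) := Nat.nth_strictMono hinf
    have hCpos : 0 < C := by
      have h1 := hC 1
      have h2 : 1 ≤ Nat.nth (fun a => a ∈ A) 1 := by
        have := hmono (show 0 < 1 by omega)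
        omega
      have h3 : (1 : ℝ) ≤ (Nat.nth (fun a => a ∈ A) 1 : ℝ) := by exact_mod_cast h2
      by_contra hneg
      push Not at hneg
      have : C * ((1 : ℕ) + 1 : ℝ) ^ 2 ≤ 0 := mul_nonpos_of_nonpos_of_nonneg hneg (by positivity)
      linarith
    refine ⟨1 / (2 * Real.sqrt C), by positivity, ?_⟩
    have hsC : 0 < Real.sqrt C := Real.sqrt_pos.2 hCpos
    -- for `N ≥ 16 C`
    obtain ⟨N0, hN0⟩ := exists_nat_gt (16 * C)
    filter_upwards [eventually_ge_atTop N0] with N hN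
    have hNC : 16 * C ≤ (N : ℝ) := by
      have : (N0 : ℝ) ≤ N := by exact_mod_cast hN
      linarith
    have hq : 4 ≤ Real.sqrt N / Real.sqrt C := by
      rw [le_div_iff₀ hsC]
      have : (4 : ℝ) * Real.sqrt C = Real.sqrt (16 * C) := by
        rw [Real.sqrt_mul (by norm_num)]
        norm_num
      rw [this]
      exact Real.sqrt_le_sqrt hNC
    set m := ⌊Real.sqrt N / Real.sqrt C⌋₊ with hm
    have hm1 : (m : ℝ) ≤ Real.sqrt N / Real.sqrt C := Nat.floor_le (by positivity)
    have hm2 : Real.sqrt N / Real.sqrt C < m + 1 := Nat.lt_floor_add_one _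
    have hmpos : 0 < m := by
      have : (0 : ℝ) < m := by linarith
      exact_mod_cast this
    -- the elements `a_1, …, a_{m-1}` (0-indexed) lie in `[1,N]`
    have hsub : (Finset.Ico 1 m).image (Nat.nth (fun a => a ∈ A)) ⊆
        ((Set.finite_Icc 1 N).subset (Set.inter_subset_right (s := A))).toFinset := by
      intro a ha
      obtain ⟨i, hi, rfl⟩ := Finset.mem_image.1 ha
      rw [Finset.mem_Ico] at hi
      rw [Set.Finite.mem_toFinset]
      refine ⟨hnth i, ?_, ?_⟩
      · have := hmono (show 0 < i by omega)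
        omega
      · have h1 := hC i
        have h2 : ((i : ℝ) + 1) ≤ m := by exact_mod_cast hi.2
        have h3 : ((i : ℝ) + 1) ^ 2 ≤ (Real.sqrt N / Real.sqrt C) ^ 2 := by
          have : (0 : ℝ) ≤ (i : ℝ) + 1 := by positivity
          exact pow_le_pow_left₀ this (by linarith) 2
        have h4 : (Real.sqrt N / Real.sqrt C) ^ 2 = N / C := by
          rw [div_pow, Real.sq_sqrt (by positivity), Real.sq_sqrt hCpos.le]
        have h5 : C * ((i : ℝ) + 1) ^ 2 ≤ N := by
          calc C * ((i : ℝ) + 1) ^ 2 ≤ C * (N / C) :=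
                mul_le_mul_of_nonneg_left (by rw [← h4]; exact h3) hCpos.le
            _ = N := by field_simp
        exact_mod_cast le_trans h1 h5
    have hcard := Finset.card_le_card hsub
    rw [Finset.card_image_of_injective _ hmono.injective, Nat.card_Ico,
      ← Set.ncard_eq_toFinset_card _ ((Set.finite_Icc 1 N).subset Set.inter_subset_right)] at hcard
    have h6 : ((m - 1 : ℕ) : ℝ) ≤ ((A ∩ Set.Icc 1 N).ncard : ℝ) := by exact_mod_cast hcard
    refine le_trans ?_ h6
    rw [Nat.cast_sub hmpos, Nat.cast_one, div_one]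
    have h7 : 1 / (2 * Real.sqrt C) * Real.sqrt N = (Real.sqrt N / Real.sqrt C) / 2 := by
      field_simp
    rw [h7]
    linarith
  · rintro h A ⟨c, hc, hA⟩
    obtain ⟨N0, hN0⟩ := eventually_atTop.1 hA
    have hinf : A.Infinite := by
      intro hfin
      obtain ⟨N1, hN1⟩ := exists_nat_gt (((A.ncard : ℝ) / c) ^ 2)
      have h1 := hN0 (max N0 N1) (le_max_left _ _)
      have h2 : ((A ∩ Set.Icc 1 (max N0 N1)).ncard : ℝ) ≤ A.ncard := by
        exact_mod_cast Set.ncard_le_ncard Set.inter_subset_left hfin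
      have h3 : (A.ncard : ℝ) / c < Real.sqrt ((max N0 N1 : ℕ) : ℝ) := by
        apply Real.lt_sqrt_of_sq_lt
        have : (N1 : ℝ) ≤ ((max N0 N1 : ℕ) : ℝ) := by exact_mod_cast le_max_right _ _
        linarith
      rw [div_lt_iff₀ hc] at h3
      rw [div_one] at h1
      nlinarith
    refine h A hinf ⟨1 / c ^ 2 + N0, fun n => ?_⟩
    set a := Nat.nth (fun a => a ∈ A) n with ha
    have hn1 : (1 : ℝ) ≤ ((n : ℝ) + 1) ^ 2 := by
      have : (1 : ℝ) ≤ (n : ℝ) + 1 := by
        have : (0 : ℝ) ≤ n := Nat.cast_nonneg n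
        linarith
      nlinarith
    by_cases haN : a < N0
    · have h1 : (a : ℝ) ≤ N0 := by exact_mod_cast haN.le
      have h2 : (0 : ℝ) ≤ 1 / c ^ 2 * ((n : ℝ) + 1) ^ 2 := by positivity
      have h3 : (N0 : ℝ) ≤ N0 * ((n : ℝ) + 1) ^ 2 :=
        le_mul_of_one_le_right (Nat.cast_nonneg _) hn1
      nlinarith
    · push Not at haN
      have h1 := hN0 a haN
      rw [div_one] at h1
      have h2 : (A ∩ Set.Icc 1 a).ncard ≤ n + 1 := by
        have h3 : A ∩ Set.Icc 1 a ⊆ ((Finset.range (a + 1)).filter (fun x => x ∈ A) : Finset ℕ) := by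
          rintro x ⟨hx1, hx2, hx3⟩
          simp only [Finset.coe_filter, Finset.mem_range]
          exact ⟨by omega, hx1⟩
        have h4 := Set.ncard_le_ncard h3 (Finset.finite_toSet _)
        rw [Set.ncard_coe_finset] at h4
        have h5 : ((Finset.range (a + 1)).filter (fun x => x ∈ A)).card
            = Nat.count (fun x => x ∈ A) (a + 1) := (Nat.count_eq_card_filter_range _ _).symm
        have h6 : Nat.count (fun x => x ∈ A) a = n :=
          Nat.count_nth_of_infinite (p := fun x => x ∈ A) hinf n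
        have h7 : Nat.count (fun x => x ∈ A) (a + 1) ≤ n + 1 := by
          rw [Nat.count_succ, h6]
          split_ifs <;> omega
        omega
      have h3 : c * Real.sqrt a ≤ (n : ℝ) + 1 := le_trans h1 (by exact_mod_cast h2)
      have h4 : (c * Real.sqrt a) ^ 2 ≤ ((n : ℝ) + 1) ^ 2 :=
        pow_le_pow_left₀ (by positivity) h3 2
      rw [mul_pow, Real.sq_sqrt (Nat.cast_nonneg a)] at h4
      have h5 : (a : ℝ) ≤ 1 / c ^ 2 * ((n : ℝ) + 1) ^ 2 := by
        rw [div_mul_eq_mul_div, one_mul, le_div_iff₀ (by positivity)]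
        linarith
      have h6 : (0 : ℝ) ≤ N0 * ((n : ℝ) + 1) ^ 2 := by positivity
      nlinarith

/-- forcing functions dominated by a forcing function -/
lemma forces_of_div {g h : ℕ → ℝ} (hh : ∀ N, 0 < h N) (hg : Forces g)
    (hgh : Tendsto (fun N => g N / h N) atTop atTop) : Forces h := by
  rintro A ⟨c, hc, hA⟩
  refine hg A ⟨c, hc, ?_⟩
  filter_upwards [hA, hgh.eventually_ge_atTop 1] with N h1 h2
  rw [le_div_iff₀ (hh N), one_mul] at h2
  refine le_trans ?_ h1
  exact div_le_div_of_nonneg_left (by positivity) (hh N) h2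

/-- **Main result.** An increasing sequence of positive functions consists of forcing functions iff
some forcing function `g` has `g / G j → ∞` for all `j`; in particular Q1 is equivalent to the
strong form of the Erdős–Turán conjecture. -/
theorem result :
    (∀ G : ℕ → ℕ → ℝ, (∀ j N, 0 < G j N) → (∀ j N, G j N ≤ G (j + 1) N) →
      ((∀ j, Forces (G j)) ↔
        ∃ g : ℕ → ℝ, Forces g ∧ ∀ j, Tendsto (fun N => g N / G j N) atTop atTop)) ∧
    ((∃ g : ℕ → ℝ, Tendsto g atTop atTop ∧ Forces g) ↔ StrongErdosTuran) :=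
  ⟨fun G h1 h2 => ⟨diagonal G h1 h2, fun ⟨_, hg, hgj⟩ j => forces_of_div (h1 j) hg (hgj j)⟩,
    exists_iff_one.trans forces_one_iff⟩

end Pool.Agent.Results.MP_491344_nt.ThresholdEquivalence
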